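import Pool.Agent.W780.PG.Stm

/-!
# PG-HULL: the region of a convex polygon (task of helper780)
-/

set_option autoImplicit false

namespace Pool.Agent.W975.PG

open Complex Set Filter Topology Pool.Agent.W780.PG

open scoped ComplexConjugate Real

lemma lft_eq (a b z : ℂ) :
    lft a b z = (b.re - a.re) * (z.im - a.im) - (b.im - a.im) * (z.re - a.re) := by
  unfold lft
  simp only [Complex.mul_im, Complex.conj_re, Complex.conj_im, Complex.sub_re, Complex.sub_im]
  ring

lemma lft_swap (a b z : ℂ) : lft a b z = -lft b a z := by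
  rw [lft_eq, lft_eq]
  ring

lemma mem_tri {s : Set ℂ} {a b c z : ℂ} (ha : a ∈ s) (hb : b ∈ s) (hc : c ∈ s)
    (hS : 0 < lft b c a) (h1 : 0 ≤ lft b c z) (h2 : 0 ≤ lft a b z) (h3 : lft a c z ≤ 0) :
    z ∈ convexHull ℝ s := by
  have h4 : z = (lft b c z / lft b c a) • a + (-lft a c z / lft b c a) • b +
      (lft a b z / lft b c a) • c := by
    apply Complex.ext
    · simp only [Complex.add_re, Complex.smul_re, smul_eq_mul]
      field_simp
      simp only [lft_eq]
      ring
    · simp only [Complex.add_im, Complex.smul_im, smul_eq_mul]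
      field_simp
      simp only [lft_eq]
      ring
  have h5 : lft b c z / lft b c a + -lft a c z / lft b c a + lft a b z / lft b c a = 1 := by
    field_simp
    simp only [lft_eq]
    ring
  have hk := (convex_convexHull ℝ s).sum_mem (t := Finset.univ)
    (w := ![lft b c z / lft b c a, -lft a c z / lft b c a, lft a b z / lft b c a])
    (z := ![a, b, c]) (by
      intro i _
      fin_cases i
      · exact div_nonneg h1 hS.le
      · exact div_nonneg (by linarith) hS.le
      · exact div_nonneg h2 hS.le) (by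
      rw [Fin.sum_univ_three]
      exact h5) (by
      intro i _
      fin_cases i
      · exact subset_convexHull ℝ s ha
      · exact subset_convexHull ℝ s hb
      · exact subset_convexHull ℝ s hc)
  rw [Fin.sum_univ_three] at hk
  rw [h4]
  exact hk

/-- the index `j` modulo `n + 3` -/
def ix (n j : ℕ) : Fin (n + 3) := ⟨j % (n + 3), Nat.mod_lt _ (by omega)⟩

lemma ix_succ (n j : ℕ) : ix n (j + 1) = ix n j + 1 := by
  apply Fin.ext
  rw [Fin.val_add]
  simp only [ix, Fin.val_one, Nat.add_mod, Nat.mod_mod]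

lemma ix_zero (n : ℕ) : ix n 0 = 0 := by
  apply Fin.ext
  simp [ix]

lemma ix_last (n : ℕ) : ix n (n + 3) = 0 := by
  apply Fin.ext
  simp [ix]

lemma cast_ne_zero {n j : ℕ} (h1 : 1 ≤ j) (h2 : j ≤ n + 2) : (0 : Fin (n + 3)) ≠ ix n j := by
  intro h
  have h3 := congrArg Fin.val h
  simp only [ix] at h3
  rw [Nat.mod_eq_of_lt (by omega)] at h3
  simp at h3
  omega

lemma fan {n : ℕ} {p : Fin (n + 3) → ℂ} (hp : IsConvexPolygon p) {z : ℂ} (hz : z ∈ creg p) :
    z ∈ convexHull ℝ (range p) := by
  have h0 : 0 ≤ lft (p 0) (p (ix n 1)) z := by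
    have h := hz (ix n 0)
    rw [← ix_succ, ix_zero] at h
    exact h
  have hn : lft (p 0) (p (ix n (n + 2))) z ≤ 0 := by
    have h1 := hz (ix n (n + 2))
    rw [← ix_succ, ix_last] at h1
    rw [lft_swap]
    linarith
  obtain ⟨j, hj1, hj2, hj3, hj4⟩ : ∃ j : ℕ, 1 ≤ j ∧ j ≤ n + 1 ∧
      0 ≤ lft (p 0) (p (ix n j)) z ∧ lft (p 0) (p (ix n (j + 1))) z ≤ 0 := by
    by_contra hcon
    push Not at hcon
    have hall : ∀ j : ℕ, j ≤ n → 0 < lft (p 0) (p (ix n (j + 2))) z := by
      intro j
      induction j with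
      | zero =>
        intro _
        exact hcon 1 le_rfl (by omega) h0
      | succ j ih =>
        intro hj
        exact hcon (j + 2) (by omega) (by omega) (ih (by omega)).le
    exact absurd (hall n le_rfl) (not_lt.mpr hn)
  have hcast : ix n (j + 1) = ix n j + 1 := ix_succ n j
  have hS := hp.pos (ix n j) 0 (cast_ne_zero hj1 (by omega)) (by
    rw [← hcast]
    exact cast_ne_zero (by omega) (by omega))
  have hzj := hz (ix n j)
  rw [← hcast] at hS hzj
  exact mem_tri (mem_range_self _) (mem_range_self _) (mem_range_self _) hS hzj hj3 hj4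

theorem hull (hB : S_Basic) : S_Hull := by
  intro n p hp
  obtain ⟨-, hop, hcv, -, hcc, hne, hcl, hv, -⟩ := hB n p hp
  have h1 : creg p = convexHull ℝ (range p) := by
    apply Set.Subset.antisymm
    · intro z hz
      exact fan hp hz
    · apply convexHull_min _ hcc
      rintro _ ⟨i, rfl⟩
      exact hv i
  refine ⟨h1, ?_⟩
  unfold region
  rw [← h1, ← hcl, hcv.interior_closure_eq_interior_of_nonempty_interior
    (by rw [hop.interior_eq]; exact hne), hop.interior_eq]

end Pool.Agent.W975.PG
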